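import Pool.Agent.E8helper39.WW.Stm

/-!
WW-NSV (MP_a50277_co): the Veronese vectors of nonproportional points have no two skew circuits,
from `S_VER`.
-/

set_option autoImplicit false

open Module Submodule

namespace Pool.Agent.E8helper52.WW

open WW39

theorem ver_apply (d : ℕ) (p : Fin 3 → ℝ)
    (F : MvPolynomial.homogeneousSubmodule (Fin 3) ℝ d) :
    ver d p F = MvPolynomial.eval p F.1 := by
  simp [ver]

theorem ver_ne_zero (d : ℕ) {p : Fin 3 → ℝ} (hp : p ≠ 0) : ver d p ≠ 0 := by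
  obtain ⟨j, hj⟩ : ∃ j, p j ≠ 0 := by
    by_contra hh
    push Not at hh
    exact hp (funext hh)
  intro h0
  have hX : (MvPolynomial.X j ^ d : Pol).IsHomogeneous d := by
    have := (MvPolynomial.isHomogeneous_X ℝ j).pow d
    simpa using this
  have := LinearMap.congr_fun h0 ⟨MvPolynomial.X j ^ d, hX⟩
  rw [ver_apply] at this
  simp only [map_pow, MvPolynomial.eval_X, LinearMap.zero_apply] at this
  exact pow_ne_zero d hj this

theorem circuit {ι V : Type} [AddCommGroup V] [Module ℝ V] [DecidableEq ι] (v : ι → V)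
    (A : Finset ι) (hA : ¬ LinearIndepOn ℝ v (A : Set ι)) :
    ∃ S ⊆ A, ∃ l : ι → ℝ, (∑ i ∈ S, l i • v i = 0) ∧ (∀ i ∈ S, l i ≠ 0) ∧ S.Nonempty ∧
      ∀ i ∈ S, LinearIndepOn ℝ v (↑(S.erase i) : Set ι) := by
  classical
  obtain ⟨S, hS, hmin⟩ := Finset.exists_min_image
    (A.powerset.filter (fun S : Finset ι => ¬ LinearIndepOn ℝ v (S : Set ι))) Finset.card
    ⟨A, by simp [hA]⟩
  simp only [Finset.mem_filter, Finset.mem_powerset] at hS hmin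
  obtain ⟨hSA, hdep⟩ := hS
  have her : ∀ i ∈ S, LinearIndepOn ℝ v (↑(S.erase i) : Set ι) := by
    intro i hi
    by_contra hcon
    have := hmin (S.erase i) ⟨(Finset.erase_subset i S).trans hSA, hcon⟩
    have h2 := Finset.card_erase_lt_of_mem hi
    omega
  have hdep' := hdep
  rw [linearIndepOn_finset_iff] at hdep'
  push Not at hdep'
  obtain ⟨l, hl, i₀, hi₀, hli₀⟩ := hdep'
  refine ⟨S, hSA, l, hl, ?_, ⟨i₀, hi₀⟩, her⟩
  intro i hi h0
  have h1 := her i hi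
  rw [linearIndepOn_finset_iff] at h1
  have h2 : ∑ j ∈ S.erase i, l j • v j = 0 := by
    have := Finset.add_sum_erase S (fun j => l j • v j) hi
    simp only [h0, zero_smul, zero_add] at this
    rw [this, hl]
  have h3 := h1 l h2 i₀ (Finset.mem_erase.2 ⟨fun h => hli₀ (h ▸ h0), hi₀⟩)
  exact hli₀ h3

theorem exists_form (d : ℕ) (T : Finset (Fin 3 → ℝ)) (p₀ : Fin 3 → ℝ)
    (hT : LinearIndepOn ℝ (ver d) (T : Set (Fin 3 → ℝ))) (h0 : p₀ ∈ T) :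
    ∃ F : Pol, F.IsHomogeneous d ∧ MvPolynomial.eval p₀ F = 1 ∧
      ∀ q ∈ T, q ≠ p₀ → MvPolynomial.eval q F = 0 := by
  classical
  have hnot := (linearIndepOn_iff_notMem_span.1 hT) p₀ h0
  have hker : ¬ (⨅ i : {q // q ∈ T.erase p₀}, LinearMap.ker (ver d i.1)) ≤
      LinearMap.ker (ver d p₀) := by
    intro hle
    apply hnot
    have := mem_span_of_iInf_ker_le_ker hle
    refine span_mono ?_ this
    rintro _ ⟨⟨q, hq⟩, rfl⟩
    refine ⟨q, ?_, rfl⟩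
    rw [Finset.mem_erase] at hq
    exact ⟨hq.2, hq.1⟩
  obtain ⟨F, hF, hF0⟩ := SetLike.not_le_iff_exists.1 hker
  simp only [Submodule.mem_iInf, LinearMap.mem_ker, ver_apply] at hF hF0
  have hF1 : F.1.IsHomogeneous d := F.2
  refine ⟨MvPolynomial.C (MvPolynomial.eval p₀ F.1)⁻¹ * F.1, ?_, ?_, ?_⟩
  · have := (MvPolynomial.isHomogeneous_C (Fin 3) (MvPolynomial.eval p₀ F.1)⁻¹).mul hF1
    simpa using this
  · rw [map_mul, MvPolynomial.eval_C, inv_mul_cancel₀ hF0]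
  · intro q hq hqp
    rw [map_mul, hF ⟨q, Finset.mem_erase.2 ⟨hqp, hq⟩⟩, mul_zero]

theorem exists_line (p₀ p₁ : Fin 3 → ℝ) (h : ∀ c : ℝ, p₀ ≠ c • p₁) :
    ∃ L : Pol, L.IsHomogeneous 1 ∧ MvPolynomial.eval p₀ L = 1 ∧ MvPolynomial.eval p₁ L = 0 := by
  have hn : p₀ ∉ span ℝ ({p₁} : Set (Fin 3 → ℝ)) := by
    intro hm
    obtain ⟨c, hc⟩ := Submodule.mem_span_singleton.1 hm
    exact h c hc.symm
  obtain ⟨f, hf, hf1⟩ := Submodule.exists_le_ker_of_notMem hn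
  have hf1' : f p₁ = 0 := hf1 (Submodule.mem_span_singleton_self p₁)
  have hev : ∀ x : Fin 3 → ℝ, MvPolynomial.eval x
      (∑ i : Fin 3, MvPolynomial.C ((f p₀)⁻¹ * f (fun j => if i = j then 1 else 0)) *
        MvPolynomial.X i : Pol) = (f p₀)⁻¹ * f x := by
    intro x
    rw [map_sum, LinearMap.pi_apply_eq_sum_univ f x, Finset.mul_sum]
    refine Finset.sum_congr rfl fun i _ => ?_
    rw [map_mul, MvPolynomial.eval_C, MvPolynomial.eval_X, smul_eq_mul]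
    ring
  refine ⟨∑ i : Fin 3, MvPolynomial.C ((f p₀)⁻¹ * f (fun j => if i = j then 1 else 0)) *
        MvPolynomial.X i, ?_, ?_, ?_⟩
  · exact MvPolynomial.IsHomogeneous.sum _ _ _ fun i _ => MvPolynomial.isHomogeneous_C_mul_X _ _
  · rw [hev, inv_mul_cancel₀ hf]
  · rw [hev, hf1', mul_zero]

/-- one half: the form `G` of degree `n + 2` -/
theorem half (n : ℕ) (C₁ C₂ : Finset (Fin 3 → ℝ)) (l m : (Fin 3 → ℝ) → ℝ)
    (hS : Simp (↑(C₁ ∪ C₂) : Set (Fin 3 → ℝ)))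
    (hdis : Disjoint (span ℝ (ver (n + 1) '' C₁)) (span ℝ (ver (n + 1) '' C₂)))
    (hm : ∑ y ∈ C₂, m y • ver (n + 1) y = 0)
    (hm0 : ∀ y ∈ C₂, m y ≠ 0) (hC₂ : C₂.Nonempty)
    (hi₁ : ∀ i ∈ C₁, LinearIndepOn ℝ (ver (n + 1)) (↑(C₁.erase i) : Set (Fin 3 → ℝ)))
    (hi₂ : ∀ i ∈ C₂, LinearIndepOn ℝ (ver (n + 1)) (↑(C₂.erase i) : Set (Fin 3 → ℝ)))
    (hl : ∑ y ∈ C₁, l y • ver (n + 1) y = 0) (hl0 : ∀ y ∈ C₁, l y ≠ 0)
    (p₀ : Fin 3 → ℝ) (hp₀ : p₀ ∈ C₁) :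
    ∃ G : Pol, G.IsHomogeneous (n + 2) ∧ MvPolynomial.eval p₀ G = 1 ∧
      ∀ z ∈ C₁ ∪ C₂, z ≠ p₀ → MvPolynomial.eval z G = 0 := by
  classical
  have hne : ∀ y ∈ C₁ ∪ C₂, ver (n + 1) y ≠ 0 := fun y hy =>
    ver_ne_zero _ (hS.1 y (by exact_mod_cast hy))
  obtain ⟨p₁, hp₁, hp₁₀⟩ : ∃ p₁ ∈ C₁, p₁ ≠ p₀ := by
    by_contra hcon
    push Not at hcon
    have hC : C₁ = {p₀} := by
      ext z
      simp only [Finset.mem_singleton]
      exact ⟨fun hz => hcon z hz, fun hz => hz ▸ hp₀⟩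
    rw [hC, Finset.sum_singleton] at hl
    rcases smul_eq_zero.1 hl with h | h
    · exact hl0 p₀ hp₀ h
    · exact hne p₀ (Finset.mem_union_left _ hp₀) h
  obtain ⟨y₁, hy₁⟩ := hC₂
  have hTi : LinearIndepOn ℝ (ver (n + 1)) (↑(C₁.erase p₁ ∪ C₂.erase y₁) : Set (Fin 3 → ℝ)) := by
    rw [Finset.coe_union]
    refine (hi₁ p₁ hp₁).union (hi₂ y₁ hy₁) (hdis.mono ?_ ?_)
    · exact span_mono (Set.image_mono (by exact_mod_cast Finset.erase_subset _ _))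
    · exact span_mono (Set.image_mono (by exact_mod_cast Finset.erase_subset _ _))
  obtain ⟨F, hF, hF1, hF0⟩ := exists_form (n + 1) _ p₀ hTi
    (Finset.mem_union_left _ (Finset.mem_erase.2 ⟨hp₁₀.symm, hp₀⟩))
  have hdisj : ∀ z ∈ C₂, z ≠ p₀ := by
    rintro z hz rfl
    have h1 : ver (n + 1) z ∈ span ℝ (ver (n + 1) '' C₁) :=
      subset_span ⟨z, by exact_mod_cast hp₀, rfl⟩
    have h2 : ver (n + 1) z ∈ span ℝ (ver (n + 1) '' C₂) :=
      subset_span ⟨z, by exact_mod_cast hz, rfl⟩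
    exact hne z (Finset.mem_union_left _ hp₀) (Submodule.disjoint_def.1 hdis _ h1 h2)
  have hFy : ∀ z ∈ C₂, MvPolynomial.eval z F = 0 := by
    intro z hz
    by_cases hzy : z = y₁
    · have h1 : (∑ y ∈ C₂, m y • ver (n + 1) y) ⟨F, hF⟩ = 0 := by rw [hm]; rfl
      rw [LinearMap.sum_apply, Finset.sum_eq_single y₁] at h1
      · rw [LinearMap.smul_apply, ver_apply, smul_eq_mul] at h1
        rcases mul_eq_zero.1 h1 with h | h
        · exact absurd h (hm0 y₁ hy₁)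
        · rw [hzy]; exact h
      · intro b hb hby
        rw [LinearMap.smul_apply, ver_apply]
        simp only
        rw [hF0 b (Finset.mem_union_right _ (Finset.mem_erase.2 ⟨hby, hb⟩)) (hdisj b hb),
          smul_zero]
      · intro h; exact absurd hy₁ h
    · exact hF0 z (Finset.mem_union_right _ (Finset.mem_erase.2 ⟨hzy, hz⟩)) (hdisj z hz)
  obtain ⟨L, hL, hL1, hL0⟩ := exists_line p₀ p₁ (fun c hc => hp₁₀
    (hS.2 p₁ (by exact_mod_cast Finset.mem_union_left _ hp₁) p₀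
      (by exact_mod_cast Finset.mem_union_left _ hp₀) c hc).symm)
  refine ⟨F * L, ?_, ?_, ?_⟩
  · have := hF.mul hL
    simpa using this
  · rw [map_mul, hF1, hL1, mul_one]
  · intro z hz hz0
    rw [map_mul]
    rcases Finset.mem_union.1 hz with h | h
    · by_cases h1 : z = p₁
      · rw [h1, hL0, mul_zero]
      · rw [hF0 z (Finset.mem_union_left _ (Finset.mem_erase.2 ⟨h1, h⟩)) hz0, zero_mul]
    · rw [hFy z h, zero_mul]

theorem dep_eval (d : ℕ) (C : Finset (Fin 3 → ℝ)) (l : (Fin 3 → ℝ) → ℝ)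
    (hl : ∑ y ∈ C, l y • ver d y = 0) (F : Pol) (hF : F.IsHomogeneous d) :
    ∑ p ∈ C, l p * MvPolynomial.eval p F = 0 := by
  have h1 : (∑ y ∈ C, l y • ver d y) ⟨F, hF⟩ = 0 := by rw [hl]; rfl
  rw [LinearMap.sum_apply] at h1
  rw [← h1]
  refine Finset.sum_congr rfl fun p _ => ?_
  rw [LinearMap.smul_apply, ver_apply, smul_eq_mul]

theorem t_NSV (h : S_VER) : S_NSV := by
  classical
  intro n C hC hSimp A hA B hB hAB
  by_contra hcon
  push Not at hcon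
  obtain ⟨hnA, hnB⟩ := hcon
  have key : ∀ A ⊆ ver (n + 1) '' C, ¬ LinearIndepOn ℝ id A →
      ∃ S : Finset (Fin 3 → ℝ), (S : Set (Fin 3 → ℝ)) ⊆ C ∧ ver (n + 1) '' S ⊆ A ∧
        ∃ l : (Fin 3 → ℝ) → ℝ, (∑ i ∈ S, l i • ver (n + 1) i = 0) ∧ (∀ i ∈ S, l i ≠ 0) ∧
        S.Nonempty ∧
        ∀ i ∈ S, LinearIndepOn ℝ (ver (n + 1)) (↑(S.erase i) : Set (Fin 3 → ℝ)) := by
    intro A hA hnA
    have hfin : {p | p ∈ C ∧ ver (n + 1) p ∈ A}.Finite := hC.subset fun p hp => hp.1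
    have himg : ver (n + 1) '' {p | p ∈ C ∧ ver (n + 1) p ∈ A} = A := by
      ext x
      constructor
      · rintro ⟨p, hp, rfl⟩; exact hp.2
      · intro hx
        obtain ⟨p, hp, rfl⟩ := hA hx
        exact ⟨p, ⟨hp, hx⟩, rfl⟩
    have hdep : ¬ LinearIndepOn ℝ (ver (n + 1)) (hfin.toFinset : Set (Fin 3 → ℝ)) := by
      intro hli
      rw [hfin.coe_toFinset] at hli
      have := hli.id_image
      rw [himg] at this
      exact hnA this
    obtain ⟨S, hSA, l, hl, hl0, hne, her⟩ := circuit (ver (n + 1)) _ hdep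
    refine ⟨S, ?_, ?_, l, hl, hl0, hne, her⟩
    · intro p hp
      have := hSA (by exact_mod_cast hp)
      rw [hfin.mem_toFinset] at this
      exact this.1
    · rintro _ ⟨p, hp, rfl⟩
      have := hSA (by exact_mod_cast hp)
      rw [hfin.mem_toFinset] at this
      exact this.2
  obtain ⟨C₁, hC₁, hC₁A, l, hl, hl0, hne₁, hi₁⟩ := key A hA hnA
  obtain ⟨C₂, hC₂, hC₂B, m, hm, hm0, hne₂, hi₂⟩ := key B hB hnB
  have hdis : Disjoint (span ℝ (ver (n + 1) '' C₁)) (span ℝ (ver (n + 1) '' C₂)) :=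
    hAB.mono (span_mono hC₁A) (span_mono hC₂B)
  have hS : Simp (↑(C₁ ∪ C₂) : Set (Fin 3 → ℝ)) := by
    have hsub : (↑(C₁ ∪ C₂) : Set (Fin 3 → ℝ)) ⊆ C := by
      rw [Finset.coe_union]; exact Set.union_subset hC₁ hC₂
    exact ⟨fun p hp => hSimp.1 p (hsub hp),
      fun p hp p' hp' c hc => hSimp.2 p (hsub hp) p' (hsub hp') c hc⟩
  have hS' : Simp (↑(C₂ ∪ C₁) : Set (Fin 3 → ℝ)) := by rwa [Finset.union_comm]
  obtain ⟨p₀, hp₀⟩ := hne₁
  obtain ⟨y₀, hy₀⟩ := hne₂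
  obtain ⟨G, hG, hG1, hG0⟩ := half n C₁ C₂ l m hS hdis hm hm0 ⟨y₀, hy₀⟩ hi₁ hi₂ hl hl0 p₀ hp₀
  obtain ⟨H, hH, hH1, hH0⟩ := half n C₂ C₁ m l hS' hdis.symm hl hl0 ⟨p₀, hp₀⟩ hi₂ hi₁ hm hm0
    y₀ hy₀
  have hdisj : Disjoint C₁ C₂ := by
    rw [Finset.disjoint_left]
    intro z h1 h2
    have h3 : ver (n + 1) z ∈ span ℝ (ver (n + 1) '' C₁) :=
      subset_span ⟨z, by exact_mod_cast h1, rfl⟩
    have h4 : ver (n + 1) z ∈ span ℝ (ver (n + 1) '' C₂) :=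
      subset_span ⟨z, by exact_mod_cast h2, rfl⟩
    exact ver_ne_zero (n + 1) (hSimp.1 z (hC₁ (by exact_mod_cast h1)))
      (Submodule.disjoint_def.1 hdis _ h3 h4)
  exact h n C₁ C₂ l m p₀ y₀ G H hdisj hS (fun F hF => dep_eval _ _ _ hl F hF)
    (fun F hF => dep_eval _ _ _ hm F hF) hp₀ hy₀ (hl0 _ hp₀) (hm0 _ hy₀) hG hH hG1 hG0 hH1
    (fun z hz hz0 => hH0 z (by rwa [Finset.union_comm]) hz0)

end Pool.Agent.E8helper52.WW
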